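import Pool.Agent.H56.TH.Defs

/-!
# THEOREM H_oo (components instead of points): definitions

`Ch`: a chart around a full component `C_y` of `P`: the image of the unit disc under the injective holomorphic map `ψ`, with
lifts through `f` at the points of `L`. `HZ`: the setting: `N` a neighbourhood of the union of the components of `P` which meet
`L`, `M` the (larger) set where the metric is defined. See think 1818.
-/

set_option autoImplicit false

open Filter Topology Metric Set MeasureTheory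
open scoped MeasureTheory

namespace Pool.Agent.H64.TO

open Pool.Agent.H56.TH

/-- charts -/
structure Ch (f : ℂ → ℂ) (L N M : Set ℂ) (ψ : ℂ → ℂ) : Prop where
  diff : DifferentiableOn ℂ ψ (ball 0 1)
  inj : InjOn ψ (ball 0 1)
  full : Full (ψ '' ball 0 1)
  sub : ψ '' ball 0 1 ⊆ N
  lift : ∀ z ∈ L, ∀ u ∈ ball (0 : ℂ) 1, f z = ψ u → ∃ G : ℂ → ℂ, DifferentiableOn ℂ G (ball 0 1) ∧ G u = z ∧
    ∀ v ∈ ball (0 : ℂ) 1, G v ∈ M ∧ f (G v) = ψ v

/-- the setting of THEOREM H_oo -/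
structure HZ (f : ℂ → ℂ) (P L N M : Set ℂ) (ρ : ℂ → ENNReal) : Prop where
  Pc : IsCompact P
  Lc : IsCompact L
  LP : L ⊆ P
  Lf : ∀ z ∈ L, f z ∈ L
  Mb : Bornology.IsBounded M
  Mo : IsOpen M
  NM : N ⊆ M
  Pf : ∀ z ∈ P, z ∈ M → f z ∈ P
  fd : DifferentiableOn ℂ f M
  met : Mt ρ P M
  ct : ∀ w ∈ M, ρ w ≤ ρ (f w) * ENNReal.ofReal ‖deriv f w‖
  esc : ∀ O : Set ℂ, IsOpen O → O.Nonempty → ∃ j : ℕ, 1 ≤ j ∧ ∃ w ∈ O, f^[j] w ∉ N
  ch : ∀ y ∈ L, ∃ ψ : ℂ → ℂ, Ch f L N M ψ ∧ connectedComponentIn P y ⊆ ψ '' ball 0 1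

end Pool.Agent.H64.TO
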