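import Pool.Agent.H64.TO.Defs
import Pool.Agent.H56.TH.TF
import Pool.Agent.H56.TH.HA
import Pool.Agent.H47.TH.Ful
import Pool.Agent.H32.BT.Branch

/-!
# THEOREM H_oo: the pull back of a window in a chart
-/

set_option autoImplicit false

open Filter Topology Metric Set MeasureTheory
open scoped MeasureTheory

namespace Pool.Agent.H64.TO

open Pool.Agent.H56.TH
open Pool.Agent.H47.TH (image_open full_image frontier_image)

/-- the inverse of an injective holomorphic map of the disc -/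
theorem inv_ex {ψ : ℂ → ℂ} (hd : DifferentiableOn ℂ ψ (ball 0 1)) (hi : InjOn ψ (ball 0 1)) :
    IsOpen (ψ '' ball 0 1) ∧ ∃ φ : ℂ → ℂ, DifferentiableOn ℂ φ (ψ '' ball 0 1) ∧
      (∀ u ∈ ball (0 : ℂ) 1, φ (ψ u) = u) ∧ ∀ w ∈ ψ '' ball 0 1, φ w ∈ ball (0 : ℂ) 1 ∧ ψ (φ w) = w := by
  have ho : ∀ s : Set ℂ, s ⊆ ball 0 1 → IsOpen s → IsOpen (ψ '' s) := fun s hs h => image_open hd hi hs h
  have hΩ : IsOpen (ψ '' ball 0 1) := ho _ Subset.rfl isOpen_ball
  obtain ⟨φ, hφ⟩ : ∃ φ, φ = Function.invFunOn ψ (ball 0 1) := ⟨_, rfl⟩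
  have h1 : ∀ w ∈ ψ '' ball 0 1, φ w ∈ ball (0 : ℂ) 1 ∧ ψ (φ w) = w := fun w hw => by
    rw [hφ]
    exact ⟨Function.invFunOn_mem hw, Function.invFunOn_eq hw⟩
  have h2 : ∀ u ∈ ball (0 : ℂ) 1, φ (ψ u) = u := fun u hu =>
    hi (h1 _ (mem_image_of_mem _ hu)).1 hu (h1 _ (mem_image_of_mem _ hu)).2
  have hc : ContinuousOn φ (ψ '' ball 0 1) := by
    rintro w ⟨u, hu, rfl⟩
    apply ContinuousAt.continuousWithinAt
    rw [ContinuousAt, h2 u hu]
    intro N hN
    obtain ⟨N', hN'N, hN'o, hu'⟩ := _root_.mem_nhds_iff.1 hN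
    have h3 : IsOpen (ψ '' (N' ∩ ball 0 1)) := ho _ inter_subset_right (hN'o.inter isOpen_ball)
    rw [Filter.mem_map]
    filter_upwards [h3.mem_nhds (mem_image_of_mem ψ ⟨hu', hu⟩)] with v hv
    obtain ⟨x, hx, rfl⟩ := hv
    show φ (ψ x) ∈ N
    rw [h2 x hx.2]
    exact hN'N hx.1
  refine ⟨hΩ, φ, fun w hw => ?_, h2, h1⟩
  exact (Pool.Agent.H32.BT.diff_of_inverse (hΩ.mem_nhds hw) hc isOpen_ball (h1 w hw).1 hd
    (fun v hv _ => (h1 v hv).2)).differentiableWithinAt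

/-- the set in the disc -/
theorem inv_wn {ψ : ℂ → ℂ} (hd : DifferentiableOn ℂ ψ (ball 0 1)) (hi : InjOn ψ (ball 0 1)) {V : Set ℂ}
    (hV : IsOpen V) (hco : IsPreconnected V) (hf : Full V) {R : ℝ} (hR : R < 1) (hVR : V ⊆ ψ '' ball 0 R) :
    IsOpen (ball 0 1 ∩ ψ ⁻¹' V) ∧ ball 0 1 ∩ ψ ⁻¹' V ⊆ ball 0 R ∧ ψ '' (ball 0 1 ∩ ψ ⁻¹' V) = V ∧
      IsPreconnected (ball 0 1 ∩ ψ ⁻¹' V) ∧ Full (ball 0 1 ∩ ψ ⁻¹' V) := by
  obtain ⟨hΩ, φ, hφ, h1, h2⟩ := inv_ex hd hi
  have hsub : ball (0 : ℂ) R ⊆ ball 0 1 := ball_subset_ball hR.le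
  have hVΩ : V ⊆ ψ '' ball 0 1 := hVR.trans (image_mono hsub)
  have e1 : ball 0 1 ∩ ψ ⁻¹' V ⊆ ball 0 R := by
    rintro u ⟨hu, hu2⟩
    obtain ⟨v, hv, hvu⟩ := hVR hu2
    rwa [← hi (hsub hv) hu hvu]
  have e2 : ψ '' (ball 0 1 ∩ ψ ⁻¹' V) = V := by
    apply Subset.antisymm
    · rintro _ ⟨u, hu, rfl⟩
      exact hu.2
    · intro v hv
      obtain ⟨u, hu, rfl⟩ := hVΩ hv
      exact ⟨u, ⟨hu, hv⟩, rfl⟩
  have e3 : ball 0 1 ∩ ψ ⁻¹' V = φ '' V := by
    apply Subset.antisymm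
    · rintro u ⟨hu, hu2⟩
      exact ⟨ψ u, hu2, h1 u hu⟩
    · rintro _ ⟨v, hv, rfl⟩
      obtain ⟨h3, h4⟩ := h2 v (hVΩ hv)
      exact ⟨h3, by rw [mem_preimage, h4]; exact hv⟩
  refine ⟨hd.continuousOn.isOpen_inter_preimage isOpen_ball hV, e1, e2, ?_, ?_⟩
  · rw [e3]
    exact hco.image φ (hφ.continuousOn.mono hVΩ)
  · intro O hO hb hfr
    have h3 : O ⊆ ball 0 R := full_ball 0 R O hO hb (hfr.trans e1)
    have h4 : ψ '' O ⊆ V := by
      have h5 : closure O ⊆ ball (0 : ℂ) 1 := by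
        rw [closure_eq_self_union_frontier]
        exact union_subset (h3.trans hsub) ((hfr.trans e1).trans hsub)
      refine hf (ψ '' O) (image_open hd hi (h3.trans hsub) hO) ?_ ?_
      · have h6 : IsCompact (closure O) :=
          Metric.isCompact_of_isClosed_isBounded isClosed_closure hb.closure
        exact ((h6.image_of_continuousOn (hd.continuousOn.mono h5)).isBounded).subset (image_mono subset_closure)
      · rw [frontier_image hO hR h3 hd hi]
        rintro _ ⟨y, hy, rfl⟩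
        exact (hfr hy).2
    intro o ho
    exact ⟨hsub (h3 ho), h4 (mem_image_of_mem _ ho)⟩

/-- the pull back of a window in a chart -/
theorem pullZ {f : ℂ → ℂ} {P L N M : Set ℂ} {ρ : ℂ → ENNReal} (h : HZ f P L N M ρ) {ψ G : ℂ → ℂ}
    (hd : DifferentiableOn ℂ ψ (ball 0 1)) (hi : InjOn ψ (ball 0 1)) (hN : ψ '' ball 0 1 ⊆ N)
    (hG : DifferentiableOn ℂ G (ball 0 1)) (hGM : ∀ v ∈ ball (0 : ℂ) 1, G v ∈ M ∧ f (G v) = ψ v) {V : Set ℂ}
    (hV : Wn P V) {R : ℝ} (hR : R < 1) (hVR : V ⊆ ψ '' ball 0 R) {x : ℂ} (hx : x ∈ V) (hxP : x ∈ P) :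
    Wn P (G '' (ball 0 1 ∩ ψ ⁻¹' V)) ∧ len ρ (G '' (ball 0 1 ∩ ψ ⁻¹' V)) ≤ len ρ V := by
  obtain ⟨hΩ, φ, hφ, h1, h2⟩ := inv_ex hd hi
  obtain ⟨i1, i2, i3, i4, i5⟩ := inv_wn hd hi hV.op hV.co hV.fu hR hVR
  obtain ⟨T, hT⟩ : ∃ T, T = ball 0 1 ∩ ψ ⁻¹' V := ⟨_, rfl⟩
  rw [← hT] at i1 i2 i3 i4 i5 ⊢
  have hsub : ball (0 : ℂ) R ⊆ ball 0 1 := ball_subset_ball hR.le
  have hGi : InjOn G (ball 0 1) := by
    intro u hu v hv huv
    apply hi hu hv
    rw [← (hGM u hu).2, ← (hGM v hv).2, huv]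
  have f1 : frontier V = ψ '' frontier T := by
    rw [← frontier_image i1 hR i2 hd hi, i3]
  have f2 : frontier (G '' T) = G '' frontier T := frontier_image i1 hR i2 hG hGi
  have f3 : frontier T ⊆ ball 0 1 := frontier_subset_closure.trans
    ((closure_mono i2).trans (closure_ball_subset_closedBall.trans (closedBall_subset_ball hR)))
  have f4 : frontier V ⊆ ψ '' ball 0 1 := by
    rw [f1]
    exact image_mono f3
  refine ⟨⟨image_open hG hGi (i2.trans hsub) i1, i4.image G (hG.continuousOn.mono (i2.trans hsub)),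
    full_image i5 hR i2 hG hGi, ?_⟩, ?_⟩
  · rw [f2, Set.disjoint_left]
    rintro _ ⟨y, hy, rfl⟩ hyP
    have h3 := h.Pf _ hyP (hGM y (f3 hy)).1
    rw [(hGM y (f3 hy)).2] at h3
    refine Set.disjoint_left.1 hV.fr ?_ h3
    rw [f1]
    exact mem_image_of_mem _ hy
  · by_cases hlen : len ρ V = ⊤
    · rw [hlen]
      exact le_top
    have hcom : IsCompact (frontier V) := by
      rw [f1]
      have h3 : IsCompact (frontier T) :=
        Metric.isCompact_of_isClosed_isBounded isClosed_frontier (isBounded_ball.subset f3)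
      exact h3.image_of_continuousOn (hd.continuousOn.mono f3)
    -- the measure of the frontier is finite
    obtain ⟨D, hD0, hD⟩ := h.Mb.subset_closedBall_lt 0 x
    have hfin : (μH[1] : Measure ℂ) (frontier V) < ⊤ := by
      have h3 : ∀ w ∈ frontier V, ENNReal.ofReal (1 / D) ≤ ρ w := by
        intro w hw
        have hwM : w ∈ M := h.NM (hN (f4 hw))
        refine le_trans (ENNReal.ofReal_le_ofReal ?_) (h.met.lo w hwM)
        have hwP : w ∉ P := fun hp => disjoint_left.1 hV.fr hw hp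
        have h0 : 0 < infDist w P := (h.Pc.isClosed.notMem_iff_infDist_pos ⟨x, hxP⟩).1 hwP
        have h4 : infDist w P ≤ dist w x := infDist_le_dist_of_mem hxP
        exact one_div_le_one_div_of_le h0 (h4.trans (hD hwM))
      have h4 : ENNReal.ofReal (1 / D) * (μH[1] : Measure ℂ) (frontier V) ≤ len ρ V := by
        unfold len
        rw [← setLIntegral_const]
        exact setLIntegral_mono' isClosed_frontier.measurableSet h3
      have h5 : ENNReal.ofReal (1 / D) ≠ 0 := by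
        simpa using hD0
      exact ENNReal.lt_top_of_mul_ne_top_right (h4.trans_lt (lt_top_iff_ne_top.2 hlen)).ne h5
    have hgd : DifferentiableOn ℂ (fun w => G (φ w)) (ψ '' ball 0 1) :=
      hG.comp hφ fun w hw => (h2 w hw).1
    have f5 : frontier (G '' T) = (fun w => G (φ w)) '' frontier V := by
      rw [f2, f1, image_image]
      refine image_congr fun y hy => ?_
      rw [h1 y (f3 hy)]
    unfold len
    rw [f5]
    refine (lint_image hΩ hgd hcom f4 hfin ρ).trans ?_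
    refine setLIntegral_mono' isClosed_frontier.measurableSet ?_
    intro w hw
    have hwΩ := f4 hw
    obtain ⟨g1, g2⟩ := h2 w hwΩ
    obtain ⟨g3, g4⟩ := hGM (φ w) g1
    have h3 := h.ct (G (φ w)) g3
    rw [g4, g2] at h3
    have hdf : HasDerivAt f (deriv f (G (φ w))) (G (φ w)) :=
      (h.fd.differentiableAt (h.Mo.mem_nhds g3)).hasDerivAt
    have hdg : HasDerivAt (fun w => G (φ w)) (deriv (fun w => G (φ w)) w) w :=
      (hgd.differentiableAt (hΩ.mem_nhds hwΩ)).hasDerivAt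
    have hcomp : HasDerivAt (fun w => f (G (φ w))) (deriv f (G (φ w)) * deriv (fun w => G (φ w)) w) w :=
      hdf.comp w hdg
    have hid : HasDerivAt (fun w => f (G (φ w))) 1 w := by
      refine (hasDerivAt_id w).congr_of_eventuallyEq ?_
      filter_upwards [hΩ.mem_nhds hwΩ] with u hu
      obtain ⟨g5, g6⟩ := h2 u hu
      rw [(hGM (φ u) g5).2, g6]
      rfl
    have hmul : deriv f (G (φ w)) * deriv (fun w => G (φ w)) w = 1 := hcomp.unique hid
    calc ρ (G (φ w)) * ENNReal.ofReal ‖deriv (fun w => G (φ w)) w‖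
        ≤ ρ w * ENNReal.ofReal ‖deriv f (G (φ w))‖ * ENNReal.ofReal ‖deriv (fun w => G (φ w)) w‖ := by gcongr
      _ = ρ w := by
          rw [mul_assoc, ← ENNReal.ofReal_mul (norm_nonneg _), ← norm_mul, hmul, norm_one,
            ENNReal.ofReal_one, mul_one]

end Pool.Agent.H64.TO
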